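import Mathlib

/-!
# H66J, file A: exchange for degree vectors of edge sets
-/

set_option autoImplicit false

namespace H66J

open Finset

variable {V : Type*} [DecidableEq V]

/-- The degree of `v` in the edge set `F` (no loops), as an integer. -/
def dg (F : Finset (Sym2 V)) (v : V) : ℤ := ((F.filter fun e => v ∈ e).card : ℤ)

/-- The unit step at `w`. -/
def st (w : V) (σ : ℤ) : V → ℤ := fun u => if u = w then σ else 0

theorem dg_insert {F : Finset (Sym2 V)} {e : Sym2 V} (he : e ∉ F) (v : V) :
    dg (insert e F) v = dg F v + if v ∈ e then 1 else 0 := by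
  unfold dg
  rw [filter_insert]
  split_ifs with h
  · rw [card_insert_of_notMem fun h1 => he (mem_filter.1 h1).1]
    push_cast
    ring
  · simp

theorem dg_erase {F : Finset (Sym2 V)} {e : Sym2 V} (he : e ∈ F) (v : V) :
    dg (F.erase e) v = dg F v - if v ∈ e then 1 else 0 := by
  have h := dg_insert (F := F.erase e) (notMem_erase e F) v
  rw [insert_erase he] at h
  rw [h]
  ring

theorem dg_sdiff {F H : Finset (Sym2 V)} (h : F ⊆ H) (v : V) : dg (H \ F) v = dg H v - dg F v := by
  unfold dg
  have h1 : (H.filter fun e => v ∈ e) = ((H \ F).filter fun e => v ∈ e) ∪ F.filter fun e => v ∈ e := by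
    ext e
    simp only [mem_filter, mem_union, mem_sdiff]
    constructor
    · rintro ⟨h1, h2⟩
      by_cases h3 : e ∈ F
      · exact Or.inr ⟨h3, h2⟩
      · exact Or.inl ⟨⟨h1, h3⟩, h2⟩
    · rintro (⟨⟨h1, -⟩, h2⟩ | ⟨h1, h2⟩)
      · exact ⟨h1, h2⟩
      · exact ⟨h h1, h2⟩
  have h2 : Disjoint ((H \ F).filter fun e => v ∈ e) (F.filter fun e => v ∈ e) := by
    rw [disjoint_left]
    intro e h3 h4
    exact (mem_sdiff.1 (mem_filter.1 h3).1).2 (mem_filter.1 h4).1
  rw [h1, card_union_of_disjoint h2]
  push_cast
  ring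

/-- If the degree of `w` is larger in `F2` there is an edge of `F2 - F1` at `w`. -/
theorem exists_edge {F1 F2 : Finset (Sym2 V)} {w : V} (h : dg F1 w < dg F2 w) :
    ∃ v, s(w, v) ∈ F2 ∧ s(w, v) ∉ F1 := by
  by_contra hcon
  push Not at hcon
  have h1 : (F2.filter fun e => w ∈ e) ⊆ F1.filter fun e => w ∈ e := by
    intro e he
    obtain ⟨h2, h3⟩ := mem_filter.1 he
    obtain ⟨v, rfl⟩ := h3
    exact mem_filter.2 ⟨hcon v h2, Sym2.mem_mk_left _ _⟩
  have h2 := card_le_card h1
  unfold dg at h
  have h3 : ((F2.filter fun e => w ∈ e).card : ℤ) ≤ ((F1.filter fun e => w ∈ e).card : ℤ) := by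
    exact_mod_cast h2
  omega

/-- EXCHANGE, upward step. -/
theorem exch_up (n : ℕ) : ∀ F1 F2 : Finset (Sym2 V), (∀ e ∈ F1 ∪ F2, ¬ e.IsDiag) →
    (symmDiff F1 F2).card ≤ n → ∀ w, dg F1 w < dg F2 w →
    ∃ F3 ⊆ F1 ∪ F2, ∃ (v : V) (τ : ℤ), (τ = 1 ∨ τ = -1) ∧ 0 < τ * (dg F2 v - (dg F1 v + st w 1 v)) ∧
      ∀ u, dg F3 u = dg F1 u + st w 1 u + st v τ u := by
  induction n with
  | zero =>
    intro F1 F2 _ hn w hw
    have h1 : symmDiff F1 F2 = ∅ := card_eq_zero.1 (Nat.le_zero.1 hn)
    have h2 : F1 = F2 := by
      rwa [← bot_eq_empty, symmDiff_eq_bot] at h1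
    rw [h2] at hw
    exact absurd hw (lt_irrefl _)
  | succ n ih =>
    intro F1 F2 hl hn w hw
    obtain ⟨v, he2, he1⟩ := exists_edge hw
    have hwv : v ≠ w := by
      intro h
      exact hl _ (mem_union_right _ he2) (by simp [h])
    have hs : ∀ u, (if u ∈ s(w, v) then (1 : ℤ) else 0) = st w 1 u + st v 1 u := by
      intro u
      unfold st
      by_cases h1 : u = w
      · have h2 : u ≠ v := fun h => hwv (h ▸ h1)
        simp [h1, Ne.symm hwv]
      · by_cases h2 : u = v
        · simp [h2, hwv]
        · simp [h1, h2]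
    by_cases hv : dg F1 v < dg F2 v
    · refine ⟨insert s(w, v) F1, ?_, v, 1, Or.inl rfl, ?_, ?_⟩
      · intro e he
        rcases mem_insert.1 he with rfl | he
        · exact mem_union_right _ he2
        · exact mem_union_left _ he
      · have : st w 1 v = 0 := by simp [st, hwv]
        rw [this]
        omega
      · intro u
        rw [dg_insert he1, hs]
        ring
    · have hv' : dg F2 v < dg (insert s(w, v) F1) v := by
        rw [dg_insert he1]
        simp
        omega
      obtain ⟨x, hx1, hx2⟩ := exists_edge hv'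
      have hx3 : s(v, x) ∈ F1 := by
        rcases mem_insert.1 hx1 with h | h
        · exact absurd (h ▸ he2) hx2
        · exact h
      have hxv : x ≠ v := by
        intro h
        exact hl _ (mem_union_left _ hx3) (by simp [h])
      have hxw : x ≠ w := by
        intro h
        apply hx2
        rw [h, Sym2.eq_swap]
        exact he2
      have hs2 : ∀ u, (if u ∈ s(v, x) then (1 : ℤ) else 0) = st v 1 u + st x 1 u := by
        intro u
        unfold st
        by_cases h1 : u = v
        · simp [h1, Ne.symm hxv]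
        · by_cases h2 : u = x
          · simp [h2, hxv]
          · simp [h1, h2]
      obtain ⟨F1', hF1'⟩ : ∃ F1', F1' = (insert s(w, v) F1).erase s(v, x) := ⟨_, rfl⟩
      have hd : ∀ u, dg F1' u = dg F1 u + st w 1 u - st x 1 u := by
        intro u
        rw [hF1', dg_erase hx1, dg_insert he1, hs, hs2]
        ring
      have hsub : F1' ⊆ F1 ∪ F2 := by
        intro e he
        rw [hF1'] at he
        rcases mem_insert.1 (mem_of_mem_erase he) with rfl | he
        · exact mem_union_right _ he2
        · exact mem_union_left _ he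
      by_cases hx : dg F2 x < dg F1 x
      · refine ⟨F1', hsub, x, -1, Or.inr rfl, ?_, ?_⟩
        · have : st w 1 x = 0 := by simp [st, hxw]
          rw [this]
          omega
        · intro u
          rw [hd]
          unfold st
          split_ifs <;> ring
      · have hlt : dg F1' x < dg F2 x := by
          rw [hd]
          have h1 : st w 1 x = 0 := by simp [st, hxw]
          have h2 : st x 1 x = 1 := by simp [st]
          rw [h1, h2]
          omega
        have hcard : (symmDiff F1' F2).card ≤ n := by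
          have h1 : symmDiff F1' F2 ⊂ symmDiff F1 F2 := by
            rw [ssubset_iff_of_subset]
            · refine ⟨s(w, v), ?_, ?_⟩
              · rw [mem_symmDiff]
                exact Or.inr ⟨he2, he1⟩
              · rw [mem_symmDiff, hF1']
                rintro (⟨-, h⟩ | ⟨-, h⟩)
                · exact h he2
                · apply h
                  rw [mem_erase]
                  exact ⟨fun h1 => hx2 (h1 ▸ he2), mem_insert_self _ _⟩
            · intro e he
              rw [mem_symmDiff, hF1'] at he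
              rw [mem_symmDiff]
              rcases he with ⟨h1, h2⟩ | ⟨h1, h2⟩
              · rcases mem_insert.1 (mem_of_mem_erase h1) with rfl | h3
                · exact absurd he2 h2
                · exact Or.inl ⟨h3, h2⟩
              · refine Or.inr ⟨h1, fun h3 => h2 ?_⟩
                rw [mem_erase]
                exact ⟨fun h4 => hx2 (h4 ▸ h1), mem_insert_of_mem h3⟩
          have h2 := card_lt_card h1
          omega
        obtain ⟨F3, hF3, y, τ, hτ, hy, hd3⟩ := ih F1' F2 (fun e he => hl e (by
          rcases mem_union.1 he with h | h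
          · exact hsub h
          · exact mem_union_right _ h)) hcard x hlt
        have hk : ∀ u, dg F1' u + st x 1 u = dg F1 u + st w 1 u := by
          intro u
          rw [hd]
          ring
        refine ⟨F3, hF3.trans (union_subset hsub subset_union_right), y, τ, hτ, ?_, ?_⟩
        · rw [← hk]
          exact hy
        · intro u
          rw [hd3, hk]

/-- EXCHANGE for degree vectors, both directions. -/
theorem exch {H F1 F2 : Finset (Sym2 V)} (h1 : F1 ⊆ H) (h2 : F2 ⊆ H) (hl : ∀ e ∈ H, ¬ e.IsDiag)
    {w : V} {σ : ℤ} (hσ : σ = 1 ∨ σ = -1) (hw : 0 < σ * (dg F2 w - dg F1 w)) :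
    ∃ F3 ⊆ H, ∃ (v : V) (τ : ℤ), (τ = 1 ∨ τ = -1) ∧ 0 < τ * (dg F2 v - (dg F1 v + st w σ v)) ∧
      ∀ u, dg F3 u = dg F1 u + st w σ u + st v τ u := by
  have hst : ∀ (x u : V) (ρ : ℤ), st x (-ρ) u = - st x ρ u := by
    intro x u ρ
    unfold st
    split_ifs <;> ring
  rcases hσ with rfl | rfl
  · obtain ⟨F3, hF3, v, τ, hτ, hv, hd⟩ := exch_up _ F1 F2
      (fun e he => hl e (union_subset h1 h2 he)) le_rfl w (by omega)
    exact ⟨F3, hF3.trans (union_subset h1 h2), v, τ, hτ, hv, hd⟩
  · obtain ⟨F3, hF3, v, τ, hτ, hv, hd⟩ := exch_up _ (H \ F1) (H \ F2)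
      (fun e he => hl e (union_subset sdiff_subset sdiff_subset he)) le_rfl w (by
        rw [dg_sdiff h1, dg_sdiff h2]
        omega)
    have hF3' : F3 ⊆ H := hF3.trans (union_subset sdiff_subset sdiff_subset)
    refine ⟨H \ F3, sdiff_subset, v, -τ, ?_, ?_, ?_⟩
    · rcases hτ with rfl | rfl
      · right; rfl
      · left; ring
    · rw [dg_sdiff h1, dg_sdiff h2] at hv
      rw [hst]
      have : -τ * (dg F2 v - (dg F1 v + -st w 1 v)) =
          τ * (dg H v - dg F2 v - (dg H v - dg F1 v + st w 1 v)) := by ring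
      rw [this]
      exact hv
    · intro u
      rw [dg_sdiff hF3', hd, dg_sdiff h1, hst, hst]
      ring

end H66J
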