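import Pool.Agent.Lib.H66J.A

/-!
# H66J, file B: families with the two step exchange; deletion and contraction
-/

set_option autoImplicit false

namespace H66J

open Finset

variable {V : Type*} [DecidableEq V]

/-- TWO STEP EXCHANGE of the family `J` on the coordinates `W`. -/
def JX (J : (V → ℤ) → Prop) (W : Finset V) : Prop :=
  ∀ x y, J x → J y → ∀ w ∈ W, ∀ σ : ℤ, (σ = 1 ∨ σ = -1) → 0 < σ * (y w - x w) →
    ∃ v ∈ W, ∃ τ : ℤ, (τ = 1 ∨ τ = -1) ∧ 0 < τ * (y v - (x v + st w σ v)) ∧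
      ∃ z, J z ∧ ∀ u ∈ W, z u = x u + st w σ u + st v τ u

theorem st_self (w : V) (σ : ℤ) : st w σ w = σ := by simp [st]

theorem st_ne {w u : V} (h : u ≠ w) (σ : ℤ) : st w σ u = 0 := by simp [st, h]

/-- DELETION. -/
theorem jx_del {J : (V → ℤ) → Prop} {W : Finset V} (hJ : JX J W) {w : V} (hw : w ∈ W) :
    JX (fun z => J z ∧ (z w = 0 ∨ z w = 2)) (W.erase w) := by
  rintro x y ⟨hx, hxw⟩ ⟨hy, hyw⟩ a ha σ hσ hpos
  have haW := mem_of_mem_erase ha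
  have haw : a ≠ w := ne_of_mem_erase ha
  obtain ⟨v, hv, τ, hτ, hv1, z, hz, hzu⟩ := hJ x y hx hy a haW σ hσ hpos
  by_cases hvw : v = w
  · subst hvw
    rw [st_ne (Ne.symm haw)] at hv1
    have hzv : z v = x v + τ := by
      rw [hzu v hw, st_ne (Ne.symm haw), st_self]
      ring
    have h1 : 0 < τ * (y v - z v) := by
      rw [hzv]
      rcases hxw with h | h <;> rcases hyw with h' | h' <;> rcases hτ with rfl | rfl <;>
        rw [h, h'] at hv1 ⊢ <;> omega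
    have hyz : y v = z v + τ := by
      rw [hzv]
      rcases hxw with h | h <;> rcases hyw with h' | h' <;> rcases hτ with rfl | rfl <;>
        rw [h, h'] at hv1 ⊢ <;> omega
    obtain ⟨v', hv', τ', hτ', hv1', z', hz', hzu'⟩ := hJ z y hz hy v hw τ hτ h1
    have hne : v' ≠ v := by
      rintro rfl
      rw [st_self, hyz] at hv1'
      simp at hv1'
    refine ⟨v', mem_erase.2 ⟨hne, hv'⟩, τ', hτ', ?_, z', ⟨hz', ?_⟩, ?_⟩
    · rw [st_ne hne, hzu v' hv', st_ne hne] at hv1'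
      simpa using hv1'
    · rw [hzu' v hw, st_self, st_ne (Ne.symm hne), add_zero, ← hyz]
      exact hyw
    · intro u hu
      rw [hzu' u (mem_of_mem_erase hu), hzu u (mem_of_mem_erase hu), st_ne (ne_of_mem_erase hu)]
      ring
  · refine ⟨v, mem_erase.2 ⟨hvw, hv⟩, τ, hτ, hv1, z, ⟨hz, ?_⟩, fun u hu => hzu u (mem_of_mem_erase hu)⟩
    rw [hzu w hw, st_ne (Ne.symm haw), st_ne (Ne.symm hvw)]
    simpa using hxw

/-- CONTRACTION. -/
theorem jx_con {J : (V → ℤ) → Prop} {W : Finset V} (hJ : JX J W) {w : V} (hw : w ∈ W) :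
    JX (fun z => J z ∧ z w = 2) (W.erase w) := by
  rintro x y ⟨hx, hxw⟩ ⟨hy, hyw⟩ a ha σ hσ hpos
  have haW := mem_of_mem_erase ha
  have haw : a ≠ w := ne_of_mem_erase ha
  obtain ⟨v, hv, τ, hτ, hv1, z, hz, hzu⟩ := hJ x y hx hy a haW σ hσ hpos
  have hvw : v ≠ w := by
    rintro rfl
    rw [st_ne (Ne.symm haw), hxw, hyw] at hv1
    simp at hv1
  refine ⟨v, mem_erase.2 ⟨hvw, hv⟩, τ, hτ, hv1, z, ⟨hz, ?_⟩, fun u hu => hzu u (mem_of_mem_erase hu)⟩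
  rw [hzu w hw, st_ne (Ne.symm haw), st_ne (Ne.symm hvw), hxw]
  ring

/-- Hypotheses on the family. -/
structure Fam (J : (V → ℤ) → Prop) (W : Finset V) : Prop where
  jx : JX J W
  par : ∀ z, J z → Even (∑ u ∈ W, z u)
  nn : ∀ z, J z → ∀ u ∈ W, 0 ≤ z u
  ex : ∃ p, J p ∧ ∀ u ∈ W, p u = 0 ∨ p u = 2

theorem sum_erase' {W : Finset V} {w : V} (hw : w ∈ W) (z : V → ℤ) :
    ∑ u ∈ W.erase w, z u = ∑ u ∈ W, z u - z w := by
  rw [← add_sum_erase W z hw]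
  ring

theorem fam_del {J : (V → ℤ) → Prop} {W : Finset V} (hJ : Fam J W) {w : V} (hw : w ∈ W) :
    Fam (fun z => J z ∧ (z w = 0 ∨ z w = 2)) (W.erase w) := by
  refine ⟨jx_del hJ.jx hw, ?_, fun z hz u hu => hJ.nn z hz.1 u (mem_of_mem_erase hu), ?_⟩
  · rintro z ⟨hz, h⟩
    rw [sum_erase' hw]
    refine (hJ.par z hz).sub ?_
    rcases h with h | h <;> rw [h]
    · exact ⟨0, by ring⟩
    · exact ⟨1, by ring⟩
  · obtain ⟨p, hp, h⟩ := hJ.ex
    exact ⟨p, ⟨hp, h w hw⟩, fun u hu => h u (mem_of_mem_erase hu)⟩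

theorem fam_con {J : (V → ℤ) → Prop} {W : Finset V} (hJ : Fam J W) {w : V} (hw : w ∈ W)
    (hp : ∃ p, J p ∧ (∀ u ∈ W, p u = 0 ∨ p u = 2) ∧ p w = 2) :
    Fam (fun z => J z ∧ z w = 2) (W.erase w) := by
  refine ⟨jx_con hJ.jx hw, ?_, fun z hz u hu => hJ.nn z hz.1 u (mem_of_mem_erase hu), ?_⟩
  · rintro z ⟨hz, h⟩
    rw [sum_erase' hw, h]
    exact (hJ.par z hz).sub ⟨1, by ring⟩
  · obtain ⟨p, hp, h, h2⟩ := hp
    exact ⟨p, ⟨hp, h2⟩, fun u hu => h u (mem_of_mem_erase hu)⟩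

end H66J
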